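import Pool.Agent.N115.JV.Core
import Pool.Agent.N115.JT.Comb
import Mathlib.FieldTheory.PolynomialGaloisGroup

/-!
Several maps together: the degrees of the forms (compare `Pool.Agent.N115.JT.Comb`).
-/

set_option autoImplicit false
set_option linter.unusedSectionVars false

open FF Pool.Agent.W603.LV Pool.Agent.W602.GT Pool.Agent.Y190.BV Pool.Agent.N115.JT
open Polynomial

namespace Pool.Agent.N115.JV

/-- the degree of the splitting field -/
theorem finrank_splitting_le {K : Type} [Field K] (F : K[X]) (hF : F.Separable) :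
    Module.finrank K F.SplittingField ≤ F.natDegree.factorial := by
  classical
  have hfact : Fact ((F.map (algebraMap K F.SplittingField)).Splits) :=
    ⟨Polynomial.SplittingField.splits F⟩
  have h1 : Nat.card F.Gal = Module.finrank K F.SplittingField := by
    rw [Polynomial.Gal.card_of_separable hF]
  rw [← h1]
  have h2 : Function.Injective (Polynomial.Gal.galActionHom F F.SplittingField) :=
    Polynomial.Gal.galActionHom_injective F F.SplittingField
  have h3 := Nat.card_le_card_of_injective _ h2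
  refine h3.trans ?_
  rw [Nat.card_eq_fintype_card, Fintype.card_perm]
  refine Nat.factorial_le ?_
  have h4 : Fintype.card (F.rootSet F.SplittingField) = F.natDegree :=
    Polynomial.card_rootSet_eq_natDegree hF (Polynomial.SplittingField.splits F)
  exact le_of_eq (by rw [← h4])

/-- **Several maps together.** -/
theorem comb3 {k K Ω : Type} [Field k] [Field K] [Field Ω] [Algebra k K] [Algebra k Ω]
    [Algebra K Ω] [IsScalarTower k K Ω] [CharZero k] [IsAlgClosed k] [IsAlgClosed Ω]
    {w r n N s : ℕ} (hr : 1 ≤ r) (htr : Algebra.trdeg k K = w)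
    (hN : 4 * (s * (r * n)) + (s * (r * n) + s * (r * (r - 1)) + 1) ^ 2 < 2 * (N + 1))
    {a : Fin (N + 1) → k} (ha : Function.Injective a) {ι : Type} (I : Finset ι)
    (hI : I.card ≤ s) {Z : ι → Finset (Fin (N + 1))} {F : ι → K[X]} {b : ι → ℕ} {δ : ι → K}
    (hD : ∀ α ∈ I, Dat r n a (Z α) (F α) (b α) (δ α)) {i0 : Fin (N + 1)}
    (hi0 : ∀ α ∈ I, i0 ∉ Z α)
    (hS : ∀ x : K, IsAlgebraic (IntermediateField.adjoin k (⋃ α ∈ I, (F α).rootSet Ω))
      (algebraMap K Ω x)) :
    GTle k K w (s * (r * n)) (2 * (s * (r * n) + 1).factorial) := by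
  classical
  have hinf : Infinite k := IsAlgClosed.instInfinite
  have hchK : CharZero K := charZero_of_injective_algebraMap (algebraMap k K).injective
  obtain ⟨F0, hm0, hsq0, hdvd, hdvd'⟩ := exists_rad I F (fun α hα => (hD α hα).monic)
    fun α hα => (hD α hα).sq
  have hF00 : F0 ≠ 0 := hm0.ne_zero
  have hsep : F0.Separable := PerfectField.separable_iff_squarefree.2 hsq0
  have hnr0 : ∀ c : k, F0.eval (algebraMap k K c) ≠ 0 := by
    intro c h
    obtain ⟨A, hA⟩ := hdvd'
    have h1 : (∏ α ∈ I, F α).eval (algebraMap k K c) = 0 := by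
      rw [hA, Polynomial.eval_mul, h, zero_mul]
    rw [Polynomial.eval_prod] at h1
    obtain ⟨α, hα, h2⟩ := Finset.prod_eq_zero_iff.1 h1
    exact (hD α hα).nroot c h2
  have hgal : IsGalois K F0.SplittingField := IsGalois.of_separable_splitting_field hsep
  have tow : IsScalarTower k K F0.SplittingField := inferInstance
  have hS' : Algebra.IsAlgebraic (Algebra.adjoin k (F0.rootSet F0.SplittingField))
      F0.SplittingField := by
    refine splitting_alg (Ω := Ω) F0 fun x => ?_
    have h1 : (⋃ α ∈ I, (F α).rootSet Ω) ⊆ F0.rootSet Ω := by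
      intro z hz
      simp only [Set.mem_iUnion] at hz
      obtain ⟨α, hα, hz⟩ := hz
      rw [Polynomial.mem_rootSet] at hz ⊢
      refine ⟨hF00, ?_⟩
      obtain ⟨A, hA⟩ := hdvd α hα
      rw [hA, map_mul, hz.2, zero_mul]
    have h2 := IntermediateField.adjoin.mono k _ _ h1
    let _ : Algebra (IntermediateField.adjoin k (⋃ α ∈ I, (F α).rootSet Ω))
      (IntermediateField.adjoin k (F0.rootSet Ω)) := (IntermediateField.inclusion h2).toRingHom.toAlgebra
    have : IsScalarTower (IntermediateField.adjoin k (⋃ α ∈ I, (F α).rootSet Ω))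
      (IntermediateField.adjoin k (F0.rootSet Ω)) Ω := IsScalarTower.of_algebraMap_eq fun x => rfl
    exact (hS x).extendScalars (IntermediateField.inclusion h2).toRingHom.injective
  -- the good nodes
  set Zt : Finset (Fin (N + 1)) := I.biUnion Z with hZt
  set Q : Finset (Fin (N + 1)) := Finset.univ \ Zt with hQ
  have hi0Q : i0 ∈ Q := by
    rw [hQ, Finset.mem_sdiff, hZt, Finset.mem_biUnion]
    exact ⟨Finset.mem_univ _, fun ⟨α, hα, h⟩ => hi0 α hα h⟩
  have hQc : Q.card + Zt.card = N + 1 := by
    rw [hQ, Finset.card_sdiff_add_card_eq_card (Finset.subset_univ _), Finset.card_univ,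
      Fintype.card_fin]
  have hdegs : F0.natDegree + r * Zt.card ≤ s * (r * n) := by
    have h1 : F0.natDegree ≤ ∑ α ∈ I, (F α).natDegree := by
      refine (Polynomial.natDegree_le_of_dvd hdvd' ?_).trans ?_
      · exact Finset.prod_ne_zero_iff.2 fun α hα => (hD α hα).monic.ne_zero
      · rw [Polynomial.natDegree_prod_of_monic _ _ fun α hα => (hD α hα).monic]
    have h2 : Zt.card ≤ ∑ α ∈ I, (Z α).card := Finset.card_biUnion_le
    have h3 : ∑ α ∈ I, ((F α).natDegree + r * (Z α).card) ≤ I.card * (r * n) := by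
      rw [← smul_eq_mul, ← Finset.sum_const]
      exact Finset.sum_le_sum fun α hα => (hD α hα).deg
    rw [Finset.sum_add_distrib, ← Finset.mul_sum] at h3
    have h4 : I.card * (r * n) ≤ s * (r * n) := Nat.mul_le_mul_right _ hI
    have h5 : r * Zt.card ≤ r * ∑ α ∈ I, (Z α).card := Nat.mul_le_mul_left _ h2
    omega
  set B : ℕ := ∑ α ∈ I, b α with hB
  have hBs : B ≤ s * (r * (r - 1)) := by
    have h3 : ∑ α ∈ I, b α ≤ I.card * (r * (r - 1)) := by
      rw [← smul_eq_mul, ← Finset.sum_const]
      exact Finset.sum_le_sum fun α hα => (hD α hα).hb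
    exact h3.trans (Nat.mul_le_mul_right _ hI)
  let e : Fin Q.card ≃ Q := Q.equivFin.symm
  -- the function
  set t : K := ∏ α ∈ I, δ α / (F α).eval (algebraMap k K (a i0)) ^ b α with ht
  have ht0 : ∀ α ∈ I, δ α / (F α).eval (algebraMap k K (a i0)) ^ b α ≠ 0 := fun α hα =>
    div_ne_zero (hD α hα).ne (pow_ne_zero _ ((hD α hα).nroot _))
  have hct : ∀ (P : Place k K) (i : Fin (N + 1)), ∀ α ∈ I, ct P (F α) (a i) ≤ ct P F0 (a i) :=
    fun P i α hα => ct_le_of_dvd P (hdvd α hα) (hnr0 _)
  have hct0 : ∀ (P : Place k K) (i : Fin (N + 1)), ∀ α ∈ I, 0 ≤ ct P (F α) (a i) :=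
    fun P i α hα => ct_nonneg P ((hD α hα).nroot _)
  have hord : ∀ (P : Place k K), ∀ α ∈ I,
      P.ord (δ α / (F α).eval (algebraMap k K (a i0)) ^ b α) =
        P.ord (δ α) - b α * cnt P (F α) - b α * ct P (F α) (a i0) := by
    intro P α hα
    rw [P.ord_div (hD α hα).ne (pow_ne_zero _ ((hD α hα).nroot _)), P.ord_pow]
    unfold ct
    ring
  have hsumB : ∀ P : Place k K, ∑ α ∈ I, (b α : ℤ) * ct P (F α) (a i0) ≤
      B * ct P F0 (a i0) := by
    intro P
    rw [hB]
    push_cast
    rw [Finset.sum_mul]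
    exact Finset.sum_le_sum fun α hα => mul_le_mul_of_nonneg_left (hct P i0 α hα) (by positivity)
  have hordt : ∀ P : Place k K, P.ord t = ∑ α ∈ I,
      (P.ord (δ α) - b α * cnt P (F α) - b α * ct P (F α) (a i0)) := by
    intro P
    have h1 : ∀ J : Finset ι, J ⊆ I →
        P.ord (∏ α ∈ J, δ α / (F α).eval (algebraMap k K (a i0)) ^ b α) =
        ∑ α ∈ J, P.ord (δ α / (F α).eval (algebraMap k K (a i0)) ^ b α) := by
      intro J
      induction J using Finset.induction_on with
      | empty => intro _; rw [Finset.prod_empty, Finset.sum_empty, P.ord_one]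
      | insert β J hβ ih =>
        intro hJ
        rw [Finset.prod_insert hβ, Finset.sum_insert hβ, P.ord_mul (ht0 β (hJ
          (Finset.mem_insert_self _ _))) (Finset.prod_ne_zero_iff.2 fun α hα => ht0 α (hJ
          (Finset.mem_insert_of_mem hα))), ih ((Finset.subset_insert _ _).trans hJ)]
    rw [ht, h1 I (Finset.Subset.refl _)]
    exact Finset.sum_congr rfl fun α hα => hord P α hα
  have hdR : F0.natDegree ≤ s * (r * n) := by omega
  have hfr := finrank_splitting_le F0 hsep
  have hbd : 2 * ((F0.natDegree + 1 - w) * Module.finrank K F0.SplittingField) ≤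
      2 * (s * (r * n) + 1).factorial := by
    rw [Nat.factorial_succ]
    refine Nat.mul_le_mul_left _ (Nat.mul_le_mul (by omega) (hfr.trans (Nat.factorial_le hdR)))
  refine (core_t3 (L := F0.SplittingField) htr F0 hsep (Polynomial.SplittingField.splits F0) hS'
    (fun j : Fin Q.card => a (e j)) (fun i j hij => e.injective (Subtype.ext (ha hij))) B ?_
    (fun i => hnr0 _) (e.symm ⟨i0, hi0Q⟩) t (Finset.prod_ne_zero_iff.2 ht0) (fun P => ?_)
    fun P i hi => ?_).mono hdR hbd
  · -- the numbers
    set d := F0.natDegree with hd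
    have h1 : (w + B) * (d + 1 - w) * 4 ≤ (d + 1 + B) ^ 2 := by
      rcases Nat.lt_or_ge (d + 1) w with h | h
      · rw [Nat.sub_eq_zero_of_le h.le, mul_zero, zero_mul]
        exact Nat.zero_le _
      · obtain ⟨c, hc⟩ := Nat.exists_eq_add_of_le h
        rw [hc, Nat.add_sub_cancel_left]
        nlinarith [sq_nonneg ((w : ℤ) + B - c), sq_nonneg (w + B + c)]
    have h2 : (d + 1 + B) ^ 2 ≤ (s * (r * n) + s * (r * (r - 1)) + 1) ^ 2 :=
      Nat.pow_le_pow_left (by omega) 2
    have h3 : Zt.card ≤ r * Zt.card := Nat.le_mul_of_pos_left _ hr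
    omega
  · have h1 : a (e (e.symm ⟨i0, hi0Q⟩)) = a i0 := by rw [Equiv.apply_symm_apply]
    rw [h1]
    right
    rw [hordt]
    have h2 : ∑ α ∈ I, (P.ord (δ α) - b α * cnt P (F α) - b α * ct P (F α) (a i0)) ≥
        ∑ α ∈ I, - ((b α : ℤ) * ct P (F α) (a i0)) := by
      refine Finset.sum_le_sum fun α hα => ?_
      have := (hD α hα).ge P
      omega
    rw [Finset.sum_neg_distrib] at h2
    have := hsumB P
    omega
  · have h1 : a (e (e.symm ⟨i0, hi0Q⟩)) = a i0 := by rw [Equiv.apply_symm_apply]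
    rw [h1]
    right
    rw [hordt]
    set i' : Fin (N + 1) := (e i : Fin (N + 1)) with hi'
    have hiQ : i' ∈ Q := (e i).2
    have hiZ : ∀ α ∈ I, i' ∉ Z α := by
      intro α hα h
      rw [hQ, Finset.mem_sdiff, hZt, Finset.mem_biUnion] at hiQ
      exact hiQ.2 ⟨α, hα, h⟩
    change ct P F0 (a i') = 1 at hi
    -- one of the `F α` has contact one
    obtain ⟨β, hβ, hβ1⟩ : ∃ β ∈ I, ct P (F β) (a i') = 1 := by
      by_contra hcon
      push Not at hcon
      have h3 : ∀ α ∈ I, ct P (F α) (a i') = 0 := by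
        intro α hα
        have := hcon α hα
        have := hct P i' α hα
        have := hct0 P i' α hα
        omega
      have h4 : (∏ α ∈ I, F α).eval (algebraMap k K (a i')) ≠ 0 := by
        rw [Polynomial.eval_prod]
        exact Finset.prod_ne_zero_iff.2 fun α hα => (hD α hα).nroot _
      have h5 := ct_le_of_dvd P hdvd' h4
      rw [ct_prod P I F fun α hα => (hD α hα).nroot _, Finset.sum_eq_zero h3] at h5
      omega
    have h2 : ∑ α ∈ I, (P.ord (δ α) - b α * cnt P (F α) - b α * ct P (F α) (a i0)) ≥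
        ∑ α ∈ I, ((if α = β then 1 else 0) - ((b α : ℤ) * ct P (F α) (a i0))) := by
      refine Finset.sum_le_sum fun α hα => ?_
      split_ifs with h
      · subst h
        have := (hD α hα).one P i' (hiZ α hα) hβ1
        omega
      · have := (hD α hα).ge P
        omega
    have h3 : ∑ α ∈ I, ((if α = β then (1 : ℤ) else 0) - ((b α : ℤ) * ct P (F α) (a i0))) =
        1 - ∑ α ∈ I, (b α : ℤ) * ct P (F α) (a i0) := by
      rw [Finset.sum_sub_distrib, Finset.sum_ite_eq' I β, if_pos hβ]
    rw [h3] at h2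
    have := hsumB P
    omega

end Pool.Agent.N115.JV
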