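import Pool.Agent.N115.JV.Forms
import Pool.Agent.N115.JT.Core

/-!
Varieties of general type: the degrees of the forms (compare `Pool.Agent.N115.JT.Core`).
-/

set_option autoImplicit false
set_option linter.unusedSectionVars false

open FF Pool.Agent.W603.LV Pool.Agent.W602.GT Pool.Agent.Y190.BV Pool.Agent.N115.JT

namespace Pool.Agent.N115.JV

/-- **Varieties of general type.** -/
theorem core_t3 {k K : Type} [Field k] [Field K] [Algebra k K] [IsAlgClosed k] [CharZero k]
    {L : Type} [Field L] [Algebra k L] [Algebra K L]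
    [IsScalarTower k K L] [FiniteDimensional K L] [IsGalois K L] {w : ℕ}
    (htr : Algebra.trdeg k K = w) (F : Polynomial K) (hF : F.Separable)
    (hs : (F.map (algebraMap K L)).Splits)
    (hS : Algebra.IsAlgebraic (Algebra.adjoin k (F.rootSet L)) L)
    {q : ℕ} (a : Fin q → k) (ha : Function.Injective a) (B : ℕ)
    (hbound : 2 * (F.natDegree + (w + B) * (F.natDegree + 1 - w)) < q)
    (h0 : ∀ i, F.eval (algebraMap k K (a i)) ≠ 0) (i0 : Fin q) (t : K) (ht : t ≠ 0)
    (h1 : ∀ P : Place k K, Ge P (-(B * ct P F (a i0))) t)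
    (h2 : ∀ (P : Place k K) (i : Fin q), ct P F (a i) = 1 → Ge P (1 - B * ct P F (a i0)) t) :
    GTle k K w F.natDegree (2 * ((F.natDegree + 1 - w) * Module.finrank K L)) := by
  classical
  obtain ⟨M, hM, ⟨hwF, hMle⟩, ω, x, hx, hpl, hne, hrat, hord⟩ := forms3 (R := B) htr F hF hs hS a ha 2
    (fun _ => 1) (fun _ => by norm_num) (by simpa using hbound) h0 i0
  have hF0 : F ≠ 0 := hF.ne_zero
  refine ⟨htr, hwF, M, hM, hMle, fun j D => t ^ M * ω j D, fun j A D => ?_, fun P _ j D hD => ?_, ?_⟩
  · simp only [hpl j A D]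
    ring
  · -- the order at the place `P`
    change Ge P 0 (t ^ M * ω j D)
    obtain ⟨j0, hj0, hj1⟩ := cnt_att P hF0
    have hj2 : ∀ j, F.coeff j = 0 ∨ P.ord (F.coeff j0) ≤ P.ord (F.coeff j) := by
      intro j
      rw [hj1]
      exact cnt_ge P F j
    have hct : ∀ i, P.ord (F.eval (algebraMap k K (a i))) - P.ord (F.coeff j0) = ct P F (a i) := by
      intro i
      rw [hj1]
      rfl
    by_cases hgood : ∀ i, ct P F (a i) ≠ 1
    · have h3 := hord true P j0 hj0 hj2 (fun _ i => by
        have h4 := ct_nonneg P (h0 i)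
        have h5 := hgood i
        rcases eq_or_lt_of_le h4 with h6 | h6
        · left
          have := hct i
          omega
        · right
          rw [hct]
          push_cast
          omega) j D hD
      rw [hct] at h3
      have h4 := ((h1 P).pow M).mul h3
      refine h4.mono (le_of_eq ?_)
      ring
    · push Not at hgood
      obtain ⟨i, hi⟩ := hgood
      have h3 : ∀ D : Fin w → Derivation k K K, (∀ i, DerLog P (D i)) →
          Ge P ((B : ℤ) * M * ct P F (a i0)) (ω j D) := by
        intro D hD
        have h4 := hord false P j0 hj0 hj2 (fun h => absurd h (by decide)) j D hD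
        rwa [hct] at h4
      have h4 := ge_of_log (hpl j) h3 hD
      have h5 := ((h2 P i hi).pow M).mul h4
      refine h5.mono (le_of_eq ?_)
      ring
  · obtain ⟨D, hD⟩ := hne
    refine ⟨D, mul_ne_zero (pow_ne_zero _ ht) hD, ?_⟩
    have h3 : (fun i : Fin w => t ^ M * ω i.succ D / (t ^ M * ω 0 D)) = x := by
      funext i
      rw [hrat]
      have := pow_ne_zero M ht
      field_simp
    rw [h3]
    exact hx.1

end Pool.Agent.N115.JV
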