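import Pool.Agent.N115.JV.Fib
import Pool.Agent.N115.IM.Top
import Pool.Agent.N115.JS.Spc

/-!
Correspondences of bounded degree with the closed subvarieties of the varieties of the vectors whose
powers are the values of a polynomial: pluricanonical forms of bounded weight.
-/

set_option autoImplicit false
set_option linter.unusedSectionVars false

open FF Polynomial

namespace Pool.Agent.N115.JV

open Pool.Agent.W602.GT (IsPluri DerReg Divisorial RegAt GeneralType Ruled coords essFinite)
open Pool.Agent.N115.JT (MultiMap baseField mem_baseField)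

/-- transport along isomorphisms -/
theorem gtle_of_equiv {k F F' : Type} [Field k] [Field F] [Field F'] [Algebra k F] [Algebra k F']
    (e : F ≃ₐ[k] F') {w R B : ℕ} (h : GTle k F w R B) : GTle k F' w R B := by
  obtain ⟨htr, hwR, N, hN, hNB, ω, hω, hreg, D, hD0, hD⟩ := h
  refine ⟨by rw [← htr]; exact e.symm.trdeg_eq, hwR, N, hN, hNB,
    fun j D' => e (ω j (fun i => Pool.Agent.TH466.QG.pushD e.symm (D' i))), fun j A D' => ?_,
    fun P hP j D' hD' => ?_,
    fun i => Pool.Agent.TH466.QG.pushD e (D i), ?_, ?_⟩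
  · have h1 : (fun i => Pool.Agent.TH466.QG.pushD e.symm (∑ l, A i l • D' l)) =
        fun i => ∑ l, (A.map e.symm) i l • Pool.Agent.TH466.QG.pushD e.symm (D' l) := by
      funext i
      ext x
      rw [Pool.Agent.TH466.QG.pushD_apply, Pool.Agent.W357.PG.sum_apply',
        Pool.Agent.W357.PG.sum_apply', map_sum]
      refine Finset.sum_congr rfl fun l _ => ?_
      rw [Derivation.coe_smul, Pi.smul_apply, smul_eq_mul, map_mul, Matrix.map_apply,
        Derivation.coe_smul, Pi.smul_apply, smul_eq_mul, Pool.Agent.TH466.QG.pushD_apply]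
    change e (ω j (fun i => Pool.Agent.TH466.QG.pushD e.symm (∑ l, A i l • D' l))) = _
    rw [h1, hω j, map_mul, map_pow]
    congr 2
    have h2 := RingHom.map_det (e : F →+* F') (A.map e.symm)
    change e _ = _ at h2
    rw [h2]
    congr 1
    ext i l
    simp [RingHom.mapMatrix_apply]
  · change P.Reg (e _)
    rw [← Pool.Agent.TH466.QG.reg_pullPl e P]
    refine hreg (Pool.Agent.TH466.QG.pullPl e P) ?_ j _ fun i f hf => ?_
    · obtain ⟨u, hu⟩ := hP
      refine ⟨fun i => e.symm (u i), fun G hG => ?_⟩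
      have h1 : MvPolynomial.aeval (fun i => e.symm (u i)) G =
          e.symm (MvPolynomial.aeval u G) := by
        rw [← AlgEquiv.coe_toAlgHom, ← MvPolynomial.comp_aeval_apply]
      rw [h1]
      refine ⟨by simpa using (hu G hG).1, ?_⟩
      change P.ord (e (e.symm _)) = 0
      rw [AlgEquiv.apply_symm_apply]
      exact (hu G hG).2
    · rw [Pool.Agent.TH466.QG.reg_pullPl] at hf ⊢
      rw [Pool.Agent.TH466.QG.pushD_apply, AlgEquiv.symm_symm, AlgEquiv.apply_symm_apply]
      exact hD' i _ hf
  · simp only [Pool.Agent.TH466.QG.pushD_symm]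
    simpa using hD0
  · simp only [Pool.Agent.TH466.QG.pushD_symm]
    have h1 := hD.map' (f := (e : F →ₐ[k] F')) e.injective
    convert h1 using 1
    funext i
    simp

/-- factors of `q ^ m * H`, where `H` has no `m`-fold factors -/
theorem dvd_of_pow {E : Type} [Field E] {m : ℕ} (hm : 1 ≤ m) {p q H : E[X]} (hp : p ≠ 0)
    (hfree : ∀ l : E[X], Irreducible l → ¬ l ^ m ∣ H) (h : p ^ m ∣ q ^ m * H) : p ∣ q := by
  classical
  obtain ⟨d, hd⟩ : ∃ d, EuclideanDomain.gcd p q = d := ⟨_, rfl⟩
  have hd0 : d ≠ 0 := by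
    rw [← hd]
    intro h0
    exact hp (EuclideanDomain.gcd_eq_zero_iff.1 h0).1
  obtain ⟨p1, hp1⟩ : d ∣ p := hd ▸ EuclideanDomain.gcd_dvd_left p q
  obtain ⟨q1, hq1⟩ : d ∣ q := hd ▸ EuclideanDomain.gcd_dvd_right p q
  have hcop : IsCoprime p1 q1 := by
    have h1 : d = p * EuclideanDomain.gcdA p q + q * EuclideanDomain.gcdB p q := by
      rw [← hd]
      exact EuclideanDomain.gcd_eq_gcd_ab p q
    generalize EuclideanDomain.gcdA p q = A at h1
    generalize EuclideanDomain.gcdB p q = B at h1
    refine ⟨A, B, mul_left_cancel₀ hd0 ?_⟩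
    calc d * (A * p1 + B * q1) = (d * p1) * A + (d * q1) * B := by ring
      _ = p * A + q * B := by rw [← hp1, ← hq1]
      _ = d := h1.symm
      _ = d * 1 := (mul_one d).symm
  have h2 : p1 ^ m ∣ q1 ^ m * H := by
    rw [hp1, hq1, mul_pow, mul_pow, mul_assoc] at h
    exact (mul_dvd_mul_iff_left (pow_ne_zero m hd0)).1 h
  have h3 : p1 ^ m ∣ H := (hcop.pow (m := m) (n := m)).dvd_of_dvd_mul_left h2
  have hu : IsUnit p1 := by
    by_contra hnu
    have hp10 : p1 ≠ 0 := by
      rintro rfl
      rw [mul_zero] at hp1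
      exact hp hp1
    obtain ⟨l, hl, hlp⟩ := WfDvdMonoid.exists_irreducible_factor hnu hp10
    exact hfree l hl ((pow_dvd_pow_of_dvd hlp m).trans h3)
  obtain ⟨u, hu⟩ := hu
  rw [hp1, hq1, ← hu]
  exact (Units.mul_right_dvd).2 (dvd_mul_right d q1)

/-- multiple factors of high degree and extensions of fields -/
theorem fac_map {K K' : Type} [Field K] [Field K'] [Algebra K K'] [CharZero K] {m : ℕ}
    (hm : 1 ≤ m) {H : K[X]} (hH : H ≠ 0) (hfac : ∀ q : K[X], 2 ≤ q.natDegree → ¬ q ^ m ∣ H)
    (q : K'[X]) (hq : 2 ≤ q.natDegree) : ¬ q ^ m ∣ H.map (algebraMap K K') := by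
  intro h
  obtain ⟨q1, H1, hqH, hfree⟩ := Pool.Agent.N115.JS.exists_free hm H hH
  have hH1 : H1 ≠ 0 := by
    rintro rfl
    rw [mul_zero] at hqH
    exact hH hqH
  have hq10 : q1 ≠ 0 := by
    rintro rfl
    rw [zero_pow (by omega), zero_mul] at hqH
    exact hH hqH
  have hq1 : q1.natDegree ≤ 1 := by
    by_contra hcon
    exact hfac q1 (by omega) ⟨H1, hqH⟩
  have hfree' : ∀ l : K'[X], Irreducible l → ¬ l ^ m ∣ H1.map (algebraMap K K') := by
    intro l hl hd
    obtain ⟨p0, h2, h3⟩ := Pool.Agent.N115.IM.exists_down hH1 hm hl hd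
    exact hfree p0 h2 h3
  rw [hqH, Polynomial.map_mul, Polynomial.map_pow] at h
  have h1 : q ∣ q1.map (algebraMap K K') := by
    refine dvd_of_pow hm ?_ hfree' h
    rintro rfl
    rw [natDegree_zero] at hq
    omega
  have h2 := natDegree_le_of_dvd h1
    ((Polynomial.map_ne_zero_iff (algebraMap K K').injective).2 hq10)
  rw [natDegree_map] at h2
  omega

/-- **Correspondences with closed subvarieties which are not ruled**: forms of bounded weight. -/
theorem corr_eff {k : Type} [Field k] [CharZero k] [IsAlgClosed k] {N n m r w : ℕ} (hm : 2 ≤ m)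
    (hn : 1 ≤ n) (hr : 1 ≤ r) (hw : 1 ≤ w)
    (hN : 4 * (r * n) + (r * n + r * (r - 1) + 1) ^ 2 < 2 * (N + 1)) {a : Fin (N + 1) → k}
    (ha : Function.Injective a) {K : Type} [Field K] [Algebra k K]
    (htr : Algebra.trdeg k K = w)
    {y : Fin (N + 1) → K} (hy0 : y ≠ 0) (hgen : coords k y = ⊤) {H : K[X]}
    (hdeg : H.natDegree ≤ n) (hy : ∀ i, y i ^ m = H.eval (algebraMap k K (a i)))
    (hfac : ∀ q : K[X], 2 ≤ q.natDegree → ¬ q ^ m ∣ H) (hnr : ¬ Ruled k K)
    {K' L : Type} [Field K'] [Field L] [Algebra k K'] [Algebra k L] [Algebra K K']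
    [Algebra L K'] [IsScalarTower k K K'] [IsScalarTower k L K'] [FiniteDimensional K K']
    [FiniteDimensional L K'] (hfr : Module.finrank L K' ≤ r) :
    GTle k L w (r * n) (2 * (r * n + 1).factorial) := by
  classical
  have hchK : CharZero K := charZero_of_injective_algebraMap (algebraMap k K).injective
  have hH : H ≠ 0 := by
    intro h0
    apply hy0
    funext i
    have h1 := hy i
    rw [h0, Polynomial.eval_zero] at h1
    exact eq_zero_of_pow_eq_zero h1
  -- `Z` is of general type
  have hN1 : 4 * n + (n + 2 * 1 - 1) ^ 2 < 2 * (N + 1) := by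
    have h1 : 1 * n ≤ r * n := Nat.mul_le_mul_right _ hr
    have h2 : (n + 2 * 1 - 1) ^ 2 ≤ (r * n + r * (r - 1) + 1) ^ 2 :=
      Nat.pow_le_pow_left (by omega) 2
    omega
  have hT := Pool.Agent.N115.IM.below_tfae (r := 1) (L := K) hm le_rfl hw hN1 ha htr hy0 hgen hdeg
    hy hfac (by rw [Module.finrank_self])
  have hg : GeneralType k K w := by
    have h34 : ¬ GeneralType k K w ↔ Ruled k K := hT.out 3 4
    by_contra hcon
    exact hnr (h34.1 hcon)
  let y' : Fin (N + 1) → K' := fun i => algebraMap K K' (y i)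
  let φ : K →ₐ[k] K' := IsScalarTower.toAlgHom k K K'
  have hy'0 : ∀ j, y' j ≠ 0 ↔ y j ≠ 0 := fun j =>
    not_congr (map_eq_zero_iff _ (algebraMap K K').injective)
  have hco : (coords k y).map φ = coords k y' := by
    have e1 : (coords k y).map φ = IntermediateField.adjoin k
        (φ '' {x | ∃ i j, y j ≠ 0 ∧ x = y i / y j}) := by
      change (IntermediateField.adjoin k _).map φ = _
      rw [IntermediateField.adjoin_map]
    rw [e1]
    change _ = IntermediateField.adjoin k {x | ∃ i j, y' j ≠ 0 ∧ x = y' i / y' j}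
    congr 1
    ext x
    constructor
    · rintro ⟨_, ⟨i, j, hj, rfl⟩, rfl⟩
      exact ⟨i, j, (hy'0 j).2 hj, map_div₀ φ _ _⟩
    · rintro ⟨i, j, hj, rfl⟩
      exact ⟨_, ⟨i, j, (hy'0 j).1 hj, rfl⟩, map_div₀ φ _ _⟩
  let e : K ≃ₐ[k] coords k y' :=
    (IntermediateField.topEquiv.symm.trans (IntermediateField.equivOfEq hgen.symm)).trans
      (((coords k y).equivMap φ).trans (IntermediateField.equivOfEq hco))
  have he : ∀ x : K, (e x : K') = algebraMap K K' x := fun x => rfl
  have hnr' : ¬ Ruled k (coords k y') :=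
    Pool.Agent.TH466.QG.not_ruled_of_general (Pool.Agent.TH466.QG.general_of_equiv e hg)
  let f : MultiMap k L a n r :=
    { m := m
      two_le := hm
      E := K'
      degree_le := hfr
      y := y'
      H := H.map (algebraMap K K')
      ne := by
        intro h
        apply hy0
        funext j
        by_contra hj
        exact (hy'0 j).2 hj (congrFun h j)
      deg := natDegree_map_le.trans hdeg
      val := by
        intro i
        change (algebraMap K K' (y i)) ^ m = _
        rw [← map_pow, hy i, IsScalarTower.algebraMap_apply k K K', eval_map_algebraMap,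
          aeval_algebraMap_apply_eq_algebraMap_eval]
      fac := fac_map (by omega) hH hfac
      not_ruled := hnr' }
  have htrK' : Algebra.trdeg k K' = w := by
    rw [← htr, ← trdeg_add_eq k K (A := K')]
    have h1 : Algebra.trdeg K K' = 0 := by
      rw [trdeg_eq_zero_iff]
      infer_instance
    rw [h1, add_zero]
  have htrL : Algebra.trdeg k L = w := by
    rw [← htrK', ← trdeg_add_eq k L (A := K')]
    have h1 : Algebra.trdeg L K' = 0 := by
      rw [trdeg_eq_zero_iff]
      infer_instance
    rw [h1, add_zero]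
  have h0 : baseField (fun _ : Unit => f) = ⊤ := by
    rw [eq_top_iff]
    intro x _
    rw [mem_baseField]
    set A := IntermediateField.adjoin k (⋃ i : Unit, ((fun _ : Unit => f) i).values) with hA
    let σ : K' →ₐ[L] AlgebraicClosure L := IsAlgClosed.lift
    have h1 : coords k y' ≤ A.comap (σ.restrictScalars k) := by
      unfold Pool.Agent.W602.GT.coords
      rw [IntermediateField.adjoin_le_iff]
      rintro _ ⟨i', j, hj, rfl⟩
      exact IntermediateField.subset_adjoin k _ (Set.mem_iUnion.2 ⟨(), σ, i', j, hj, rfl⟩)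
    let ψ : coords k y' →+* A :=
      { toFun := fun z => ⟨σ z, h1 z.2⟩
        map_one' := Subtype.ext (map_one σ)
        map_mul' := fun x y => Subtype.ext (map_mul σ _ _)
        map_zero' := Subtype.ext (map_zero σ)
        map_add' := fun x y => Subtype.ext (map_add σ _ _) }
    have h2 : IsAlgebraic (coords k y') (algebraMap L K' x) := by
      let _ : Algebra K (coords k y') := e.toAlgHom.toRingHom.toAlgebra
      have t1 : IsScalarTower K (coords k y') K' :=
        IsScalarTower.of_algebraMap_eq fun x => (he x).symm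
      have h3 : IsAlgebraic K (algebraMap L K' x) := Algebra.IsAlgebraic.isAlgebraic _
      exact h3.extendScalars (S := coords k y') e.injective
    obtain ⟨p, hp0, hp⟩ := h2
    refine ⟨p.map ψ, (Polynomial.map_ne_zero_iff ψ.injective).2 hp0, ?_⟩
    have h3 := congrArg (σ : K' →+* AlgebraicClosure L) hp
    rw [map_zero, aeval_def, Polynomial.hom_eval₂] at h3
    rw [aeval_def, eval₂_map]
    have h4 : (σ : K' →+* AlgebraicClosure L) (algebraMap L K' x) =
        algebraMap L (AlgebraicClosure L) x := σ.commutes x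
    rw [h4] at h3
    exact h3
  let e2 : baseField (fun _ : Unit => f) ≃ₐ[k] L :=
    (IntermediateField.equivOfEq h0).trans IntermediateField.topEquiv
  have h3 : Algebra.trdeg k (baseField (fun _ : Unit => f)) = w := by rw [e2.trdeg_eq, htrL]
  have h4 := base_generalE (fun _ : Unit => f) hn hr (s := 1) le_rfl (by simpa using hN) ha htrL
    (Or.inr ⟨inferInstance, by simp⟩) h3
  rw [one_mul] at h4
  exact gtle_of_equiv e2 h4

end Pool.Agent.N115.JV
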