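import Pool.Agent.N115.JT.Fin
import Pool.Agent.N115.JV.Comb

/-!
The fibration which is defined by a family of multi-valued rational maps with non-ruled images: the
degrees of the forms (compare `Pool.Agent.N115.JT.Fin`).
-/

set_option autoImplicit false
set_option linter.unusedSectionVars false

open FF Pool.Agent.W603.LV Pool.Agent.Y190.BV Polynomial

namespace Pool.Agent.N115.JV

open Pool.Agent.W602.GT (Ruled coords)
open Pool.Agent.N115.JT

variable {k L : Type} [Field k] [Field L] [Algebra k L] {N n r : ℕ} {a : Fin (N + 1) → k}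
  {ι : Type*} (f : ι → MultiMap k L a n r)

/-- **The base of the fibration is of general type.** -/
theorem base_generalE [CharZero k] [IsAlgClosed k] (hn : 1 ≤ n) (hr : 1 ≤ r) {s : ℕ}
    (hs : 1 ≤ s) (hN : 4 * (s * (r * n)) + (s * (r * n) + s * (r * (r - 1)) + 1) ^ 2 <
      2 * (N + 1)) (ha : Function.Injective a) {D : ℕ} (hD : Algebra.trdeg k L = D)
    (hfin : D ≤ s ∨ Finite ι ∧ Nat.card ι ≤ s) {w : ℕ}
    (hw : Algebra.trdeg k (baseField f) = w) :
    GTle k (baseField f) w (s * (r * n)) (2 * (s * (r * n) + 1).factorial) := by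
  classical
  have hsr : n ≤ s * (r * n) := by
    calc n = 1 * (1 * n) := by ring
      _ ≤ s * (r * n) := Nat.mul_le_mul hs (Nat.mul_le_mul_right _ hr)
  have hsn : s * n ≤ s * (r * n) := Nat.mul_le_mul_left _ (Nat.le_mul_of_pos_left _ hr)
  have hnN : n ≤ N := by omega
  have hN1 : 1 ≤ N := by omega
  have hsnN : s * n < N + 1 := by omega
  -- finitely many maps are enough
  let T : Type := {V : Set (AlgebraicClosure L) // ∃ i, V = (f i).values}
  choose α hα using fun t : T => t.2
  have hDΩ : Algebra.trdeg k (AlgebraicClosure L) = D := by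
    rw [← hD, ← trdeg_add_eq k L (A := AlgebraicClosure L)]
    have h1 : Algebra.trdeg L (AlgebraicClosure L) = 0 := by
      rw [trdeg_eq_zero_iff]
      infer_instance
    rw [h1, add_zero]
  have hT : D ≤ s ∨ (Finite T ∧ Nat.card T ≤ s) := by
    refine hfin.imp id ?_
    rintro ⟨h1, h2⟩
    have hsurj : Function.Surjective fun i : ι => (⟨(f i).values, i, rfl⟩ : T) := by
      rintro ⟨V, i, rfl⟩
      exact ⟨i, rfl⟩
    have h3 : Finite T := Finite.of_surjective _ hsurj
    refine ⟨h3, le_trans ?_ h2⟩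
    exact Nat.card_le_card_of_surjective _ hsurj
  obtain ⟨I, hI, hsel⟩ := Pool.Agent.N966.JT.select k (AlgebraicClosure L) D hDΩ T
    (fun t => t.1) s hT
  -- one map
  have hone := fun t : T => one_map (Ω := AlgebraicClosure L) Pool.Agent.N603.JT.RootsAlg.main
    Pool.Agent.N530.JT.dd (f (α t)).two_le hnN hN1 (f (α t)).degree_le ha (f (α t)).ne (f (α t)).deg
    (f (α t)).val (f (α t)).fac (f (α t)).not_ruled (baseField f) (base_closed f)
    (base_coords f (α t))
  choose Z hZ hdat using hone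
  obtain ⟨i0, hi0⟩ : ∃ i0 : Fin (N + 1), ∀ t ∈ I, i0 ∉ Z t := by
    by_contra hcon
    push Not at hcon
    have h1 : (Finset.univ : Finset (Fin (N + 1))) ⊆ I.biUnion Z := by
      intro i _
      obtain ⟨t, ht, hi⟩ := hcon i
      exact Finset.mem_biUnion.2 ⟨t, ht, hi⟩
    have h2 := Finset.card_le_card h1
    rw [Finset.card_univ, Fintype.card_fin] at h2
    have h3 : (I.biUnion Z).card ≤ I.card * n :=
      Finset.card_biUnion_le_card_mul _ _ _ fun t _ => hZ t
    have h4 : I.card * n ≤ s * n := Nat.mul_le_mul_right _ hI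
    omega
  have hdat' : ∀ t : T, ∃ (F : (baseField f)[X]) (b : ℕ) (δ : baseField f), t ∈ I →
      (Dat r n a (Z t) F b δ ∧ ∀ (σ : (f (α t)).E →ₐ[L] AlgebraicClosure L)
        (i j : Fin (N + 1)), (f (α t)).y j ≠ 0 →
        IsAlgebraic (IntermediateField.adjoin k (F.rootSet (AlgebraicClosure L)))
          (σ ((f (α t)).y i / (f (α t)).y j))) := by
    intro t
    by_cases ht : t ∈ I
    · obtain ⟨F, b, δ, h⟩ := hdat t i0 (hi0 t ht)
      exact ⟨F, b, δ, fun _ => h⟩
    · exact ⟨0, 0, 0, fun h => absurd h ht⟩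
  choose F b δ hFd using hdat'
  have tΩ : IsScalarTower k (baseField f) (AlgebraicClosure L) := inferInstance
  refine comb3 (Ω := AlgebraicClosure L) hr hw hN ha I hI (Z := Z) (F := F) (b := b) (δ := δ)
    (fun t ht => (hFd t ht).1) hi0 fun x => ?_
  -- the base field is algebraic over the roots
  set B := IntermediateField.adjoin k (⋃ t ∈ I, (F t).rootSet (AlgebraicClosure L)) with hB
  have h1 : ∀ t ∈ I, ∀ v ∈ (f (α t)).values, IsAlgebraic B v := by
    rintro t ht _ ⟨σ, i, j, hj, rfl⟩
    refine trans_alg ?_ ((hFd t ht).2 σ i j hj)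
    refine adjoin_alg fun z hz => ?_
    exact isAlgebraic_algebraMap (⟨z, IntermediateField.subset_adjoin k _
      (Set.mem_biUnion ht hz)⟩ : B)
  have h2 : ∀ i, ∀ v ∈ (f i).values, IsAlgebraic B v := by
    intro i v hv
    refine trans_alg ?_ (hsel ⟨(f i).values, i, rfl⟩ v hv)
    refine adjoin_alg fun z hz => ?_
    simp only [Set.mem_iUnion] at hz
    obtain ⟨t, ht, hz⟩ := hz
    rw [hα t] at hz
    exact h1 t ht z hz
  have h3 := (mem_baseField f x.1).1 x.2
  refine trans_alg ?_ h3
  refine adjoin_alg fun z hz => ?_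
  rw [Set.mem_iUnion] at hz
  obtain ⟨i, hz⟩ := hz
  exact h2 i z hz

end Pool.Agent.N115.JV
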