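import Pool.Agent.N115.JS.Gen
import Pool.Agent.N115.JV.Comb

/-!
The base of the fibration which is defined by a family of multi-valued maps: the degrees of the
forms (compare `Pool.Agent.N115.JS.Gen`).
-/

set_option autoImplicit false
set_option linter.unusedSectionVars false

open FF Pool.Agent.W603.LV Pool.Agent.Y190.BV Polynomial

namespace Pool.Agent.N115.JV

open Pool.Agent.W602.GT (coords)
open Pool.Agent.N115.JT (trans_alg adjoin_alg Dat card_zeros)
open Pool.Agent.N115.JS

/-- **Fields which are algebraic over the conjugates of reduced maps are of general type.** -/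
theorem general_of_fam3 {k K Ω : Type} [Field k] [Field K] [Field Ω] [Algebra k K] [Algebra k Ω]
    [Algebra K Ω] [IsScalarTower k K Ω] [CharZero k] [IsAlgClosed k] [IsAlgClosed Ω]
    [Algebra.IsAlgebraic K Ω] {N n r S : ℕ} (hr : 1 ≤ r)
    (hN : 4 * (S * (r * n)) + (S * (r * n) + S * (r * (r - 1)) + 1) ^ 2 < 2 * (N + 1))
    {a : Fin (N + 1) → k} (ha : Function.Injective a) {D : ℕ} (hD : Algebra.trdeg k K = D)
    {T : Type} (hfin : D ≤ S ∨ Finite T ∧ Nat.card T ≤ S) (sh : T → Shape N)
    (z : ∀ t, Fin ((sh t).N1 + 1) → Ω)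
    (H : T → Polynomial Ω) (hR : ∀ t, IsR (K := K) a n r (sh t) (z t) (H t))
    (hA : ∀ x : K, IsAlgebraic (IntermediateField.adjoin k
      (⋃ t, {v | ∃ (g : Ω →ₐ[K] Ω) (j : _), v = g (z t j)})) (algebraMap K Ω x)) :
    GTle k K D (S * (r * n)) (2 * (S * (r * n) + 1).factorial) := by
  classical
  have hDΩ : Algebra.trdeg k Ω = D := by
    rw [← hD, ← trdeg_add_eq k K (A := Ω)]
    have h1 : Algebra.trdeg K Ω = 0 := by
      rw [trdeg_eq_zero_iff]
      infer_instance
    rw [h1, add_zero]
  let V : T → Set Ω := fun t => {v | ∃ (g : Ω →ₐ[K] Ω) (j : _), v = g (z t j)}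
  obtain ⟨I, hI, hsel⟩ := Pool.Agent.N966.JT.select k Ω D hDΩ T V S hfin
  choose Z hZ hdat using fun i => (hR i).dats ha
  have hsn : S * n ≤ S * (r * n) := Nat.mul_le_mul_left _ (Nat.le_mul_of_pos_left _ hr)
  obtain ⟨i0, hi0⟩ : ∃ i0 : Fin (N + 1), ∀ t ∈ I, i0 ∉ Z t := by
    by_contra hcon
    push Not at hcon
    have h1 : (Finset.univ : Finset (Fin (N + 1))) ⊆ I.biUnion Z := by
      intro i _
      obtain ⟨t, ht, hi⟩ := hcon i
      exact Finset.mem_biUnion.2 ⟨t, ht, hi⟩
    have h2 := Finset.card_le_card h1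
    rw [Finset.card_univ, Fintype.card_fin] at h2
    have h3 : (I.biUnion Z).card ≤ I.card * n :=
      Finset.card_biUnion_le_card_mul _ _ _ fun t _ => hZ t
    have h4 : I.card * n ≤ S * n := Nat.mul_le_mul_right _ hI
    omega
  have hdat' : ∀ t : T, ∃ (F : K[X]) (b : ℕ) (δ : K), t ∈ I →
      (Dat r n a (Z t) F b δ ∧ ∀ (g : Ω →ₐ[K] Ω) (j),
        IsAlgebraic (IntermediateField.adjoin k (F.rootSet Ω)) (g (z t j))) := by
    intro t
    by_cases ht : t ∈ I
    · obtain ⟨F, b, δ, h⟩ := hdat t i0 (hi0 t ht)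
      exact ⟨F, b, δ, fun _ => h⟩
    · exact ⟨0, 0, 0, fun h => absurd h ht⟩
  choose F b δ hFd using hdat'
  refine comb3 (Ω := Ω) hr hD hN ha I hI (Z := Z) (F := F) (b := b) (δ := δ)
    (fun t ht => (hFd t ht).1) hi0 fun x => ?_
  set B := IntermediateField.adjoin k (⋃ t ∈ I, (F t).rootSet Ω) with hB
  have h1 : ∀ t ∈ I, ∀ v ∈ V t, IsAlgebraic B v := by
    rintro t ht _ ⟨g, j, rfl⟩
    refine trans_alg ?_ ((hFd t ht).2 g j)
    refine adjoin_alg fun u hu => ?_
    exact isAlgebraic_algebraMap (⟨u, IntermediateField.subset_adjoin k _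
      (Set.mem_biUnion ht hu)⟩ : B)
  have h2 : ∀ t, ∀ v ∈ V t, IsAlgebraic B v := by
    intro t v hv
    refine trans_alg ?_ (hsel t v hv)
    refine adjoin_alg fun u hu => ?_
    simp only [Set.mem_iUnion] at hu
    obtain ⟨t', ht', hu⟩ := hu
    exact h1 t' ht' u hu
  refine trans_alg ?_ (hA x)
  refine adjoin_alg fun u hu => ?_
  rw [Set.mem_iUnion] at hu
  obtain ⟨t, hu⟩ := hu
  exact h2 t u hu

variable {k L : Type} [Field k] [Field L] [Algebra k L] {N n r : ℕ} {a : Fin (N + 1) → k}

/-- **The base of the fibration is of general type.** -/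
theorem base_general3 [CharZero k] [IsAlgClosed k] {ι : Type} (f : ι → Corr k L a n r)
    (hr : 1 ≤ r) (hn : n ≤ N) {S : ℕ}
    (hN : 4 * (S * (r * n)) + (S * (r * n) + S * (r * (r - 1)) + 1) ^ 2 < 2 * (N + 1))
    (ha : Function.Injective a) {w : ℕ} (hw : Algebra.trdeg k (baseField f) = w)
    (hfin : w ≤ S ∨ Finite ι ∧ Nat.card ι ≤ S) :
    GTle k (baseField f) w (S * (r * n)) (2 * (S * (r * n) + 1).factorial) := by
  classical
  -- the algebraic closure of the base field
  let Ω : IntermediateField (baseField f) (AlgebraicClosure L) :=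
    algebraicClosure (baseField f) (AlgebraicClosure L)
  have hΩac : IsAlgClosed Ω := by
    have h1 : IsAlgClosure (baseField f) Ω :=
      algebraicClosure.isAlgClosure (baseField f) (AlgebraicClosure L)
    exact h1.isAlgClosed
  have hΩalg : Algebra.IsAlgebraic (baseField f) Ω := algebraicClosure.isAlgebraic _ _
  have tΩ : IsScalarTower k (baseField f) (AlgebraicClosure L) := inferInstance
  choose sh z0 H0 hR0 hz0 hal using fun i : ι => (f i).exists_isR hn ha (baseField f)
    (base_closed f) (base_coords f i)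
  let σ : ∀ i, (f i).E →ₐ[L] AlgebraicClosure L := fun i => IsAlgClosed.lift
  have hR : ∀ i, IsR (K := baseField f) a n r (sh i) (fun l => σ i (z0 i l))
      ((H0 i).map ((σ i).restrictScalars (baseField f)).toRingHom) := fun i =>
    (hR0 i).map ((σ i).restrictScalars (baseField f))
  have hzΩ : ∀ i l, σ i (z0 i l) ∈ Ω := by
    intro i l
    obtain ⟨i', j', hj', h1⟩ := hz0 i l
    rw [h1]
    exact mem_algebraicClosure_iff.2
      ((base_main f).1 _ (Set.mem_iUnion.2 ⟨i, σ i, i', j', hj', rfl⟩))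
  choose z' H' hz' hR' using fun i => (hR i).inn ha Ω (hzΩ i)
  refine general_of_fam3 (Ω := Ω) hr hN ha hw hfin sh z' H' hR' fun x => ?_
  set V : Set Ω := ⋃ t, {v | ∃ (g : Ω →ₐ[baseField f] Ω) (j : _), v = g (z' t j)} with hV
  refine alg_down (Ω.val.restrictScalars k) V (algebraMap (baseField f) Ω x) ?_
  set B := IntermediateField.adjoin k ((Ω.val.restrictScalars k) '' V) with hB
  have h1 : ∀ i, ∀ v ∈ (f i).values, v ∈ B := by
    rintro i _ ⟨τ, i', j', hj', rfl⟩
    -- an automorphism which takes `σ i` to `τ`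
    obtain ⟨g, hg⟩ : ∃ g : AlgebraicClosure L →ₐ[L] AlgebraicClosure L, g.comp (σ i) = τ := by
      let _ : Algebra (f i).E (AlgebraicClosure L) := (σ i).toRingHom.toAlgebra
      have t1 : IsScalarTower L (f i).E (AlgebraicClosure L) :=
        IsScalarTower.of_algebraMap_eq fun x => ((σ i).commutes x).symm
      have halgE : Algebra.IsAlgebraic (f i).E (AlgebraicClosure L) :=
        Algebra.IsAlgebraic.tower_top (K := L) (f i).E
      obtain ⟨g, hg⟩ : ∃ g : AlgebraicClosure L →ₐ[L] AlgebraicClosure L,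
          g.domRestrict (f i).E = τ := by
        have := IsAlgClosed.surjective_domRestrict_of_isAlgebraic
          (K := L) (L := (f i).E) (M := AlgebraicClosure L) (E := AlgebraicClosure L)
        exact this τ
      exact ⟨g, hg⟩
    -- its restriction to `Ω`
    let g1 : AlgebraicClosure L →ₐ[baseField f] AlgebraicClosure L :=
      g.restrictScalars (baseField f)
    have hg1 : ∀ u : Ω, g1 u ∈ Ω := by
      intro u
      have h2 : IsAlgebraic (baseField f) (u : AlgebraicClosure L) :=
        mem_algebraicClosure_iff.1 u.2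
      exact mem_algebraicClosure_iff.2 ((isAlgebraic_algHom_iff g1 g1.toRingHom.injective).2 h2)
    let g2 : Ω →ₐ[baseField f] Ω :=
      { toFun := fun u => ⟨g1 u, hg1 u⟩
        map_one' := Subtype.ext (map_one _)
        map_mul' := fun x y => Subtype.ext (map_mul _ _ _)
        map_zero' := Subtype.ext (map_zero _)
        map_add' := fun x y => Subtype.ext (map_add _ _ _)
        commutes' := fun c => Subtype.ext (g1.commutes c) }
    have h3 : (IntermediateField.adjoin k (Set.range (z0 i))).map (τ.restrictScalars k) ≤ B := by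
      rw [IntermediateField.adjoin_map, hB, IntermediateField.adjoin_le_iff]
      rintro _ ⟨_, ⟨l, rfl⟩, rfl⟩
      refine IntermediateField.subset_adjoin k _ ⟨g2 (z' i l), Set.mem_iUnion.2 ⟨i, g2, l, rfl⟩, ?_⟩
      change g (z' i l : AlgebraicClosure L) = τ (z0 i l)
      rw [hz' i l, ← hg]
      rfl
    exact h3 ⟨_, hal i i' j' hj', rfl⟩
  refine trans_alg ?_ ((mem_baseField f x.1).1 x.2)
  refine adjoin_alg fun u hu => ?_
  rw [Set.mem_iUnion] at hu
  obtain ⟨i, hu⟩ := hu
  exact isAlgebraic_algebraMap (⟨u, h1 i u hu⟩ : B)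

end Pool.Agent.N115.JV
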