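import Pool.Agent.N115.JV.Wt
import Pool.Agent.TH466.QT.Tens
import Pool.Agent.N170.JS.UnirSpecial
import Pool.Agent.N768.JS.LinUnir

/-!
Tensor differentials of one given degree.
-/

set_option autoImplicit false
set_option linter.unusedSectionVars false
set_option linter.overlappingInstances false

open FF IntermediateField

namespace Pool.Agent.N115.JV

open Pool.Agent.W602.GT Pool.Agent.TH466.QG
open Pool.Agent.W619.TW (TensorVanish IsUnirational)
open Pool.Agent.W619.PQ
open Pool.Agent.W619.Y
open Pool.Agent.W603.LV (Ge)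
open Pool.Agent.TH466.QT (tmap exists_dual_of_indep)
open Pool.Agent.TH710.SP (NoTensors IsLinear)

/-- There are no nonzero holomorphic tensor differentials of degree `T` (sections of the `T`-th
tensor power of the cotangent bundle) on the smooth projective varieties of dimension `n` with
function field `L`: each `L`-multilinear function of `T` rational vector fields, whose values on
vector fields regular at `P` are regular at `P` for all prime divisors `P`, is zero. -/
def TensorZero (k L : Type) [Field k] [Field L] [Algebra k L] (n T : ℕ) : Prop :=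
  ∀ ω : MultilinearMap L (fun _ : Fin T => Derivation k L L) L,
    (∀ P : Place k L, Divisorial n P → ∀ D : Fin T → Derivation k L L, (∀ j, DerReg P (D j)) →
      P.Reg (ω D)) → ω = 0

section

variable {k L : Type} [Field k] [CharZero k] [Field L] [Algebra k L]

theorem not_vanish1 {n d m : ℕ} (hn : Algebra.trdeg k L = n) (M : IntermediateField k L)
    [Algebra.EssFiniteType k M] (hM : Algebra.trdeg k M = d) (hd : 1 ≤ d) (hm : 1 ≤ m)
    (η : (Fin d → Derivation k M M) → M) (hη : IsPluriForm k M d m η)
    (hreg : ∀ u : Place k M, IsDivisorial u d → RegularAt u d η) (D0 : Fin d → Derivation k M M)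
    (h0 : η D0 ≠ 0) : ¬ TensorZero k L n (m * d) := by
  classical
  intro hT
  obtain ⟨B, hB⟩ := exists_isTranscendenceBasis k M
  have hcard := hB.cardinalMk_eq_trdeg
  rw [hM] at hcard
  obtain ⟨φ⟩ : Nonempty (Fin d ≃ B) := by
    rw [← Cardinal.eq, Cardinal.mk_fin]
    exact hcard.symm
  let y : Fin d → M := fun i => (φ i : M)
  have hy : IsTranscendenceBasis k y := hB.comp_equiv φ
  choose E hE using fun j => exists_dual (k := k) y hy j
  have hE' : ∀ i j, E i (y j) = if i = j then 1 else 0 := by
    intro i j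
    rw [hE i j]
    by_cases h : i = j
    · subst h; simp
    · rw [if_neg h, if_neg (Ne.symm h)]
  have ha : η E ≠ 0 := by
    intro h
    apply h0
    rw [pluri_frame hη y hy E hE' D0, h, mul_zero]
  have haL : ((η E : M) : L) ≠ 0 := by
    intro h
    exact ha (Subtype.ext h)
  have hyL : AlgebraicIndependent k (fun i => (y i : L)) :=
    hy.1.map' (f := M.val) M.val.toRingHom.injective
  obtain ⟨D, hD⟩ := exists_dual_of_indep hyL
  have h1 := hT
    ((tmap (k := k) d m ((η E : M) : L) (fun i => (y i : L))).domDomCongr finProdFinEquiv) ?_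
  · have h2 := congrArg (fun ω => ω fun q => D (finProdFinEquiv.symm q).2) h1
    simp only [MultilinearMap.domDomCongr_apply, Equiv.symm_apply_apply,
      _root_.zero_apply] at h2
    change ((η E : M) : L) * ∏ l : Fin m, (Matrix.of fun j i => D j (y i : L)).det = 0 at h2
    have h3 : (Matrix.of fun j i => D j (y i : L)) = (1 : Matrix (Fin d) (Fin d) L) := by
      ext j i
      rw [Matrix.of_apply, hD j i, Matrix.one_apply]
      by_cases h : i = j
      · subst h; simp
      · rw [if_neg h, if_neg (Ne.symm h)]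
    rw [h3, Matrix.det_one, Finset.prod_const_one, mul_one] at h2
    exact haL h2
  · intro w hw X hX
    obtain ⟨Z, z, hz, hZ, hge⟩ := pYLOC k L M d n m hM hn (fun y hy => fin_over y hy) η hη hreg y E
      hy hE' w hw
    rw [MultilinearMap.domDomCongr_apply]
    change w.Reg (((η E : M) : L) *
      ∏ l : Fin m, (Matrix.of fun j i => X (finProdFinEquiv (l, j)) (y i : L)).det)
    have h2 : ∀ l : Fin m, (Matrix.of fun j i => X (finProdFinEquiv (l, j)) (y i : L)).det =
        Z.det * (Matrix.of fun j c => X (finProdFinEquiv (l, j)) (z c)).det := by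
      intro l
      have h3 : (Matrix.of fun j i => X (finProdFinEquiv (l, j)) (y i : L)) =
          (Matrix.of fun j c => X (finProdFinEquiv (l, j)) (z c)) * Z.transpose := by
        ext j i
        rw [Matrix.mul_apply, Matrix.of_apply, hZ]
        exact Finset.sum_congr rfl fun c _ => by
          rw [Matrix.of_apply, Matrix.transpose_apply, mul_comm]
      rw [h3, Matrix.det_mul, Matrix.det_transpose, mul_comm]
    simp only [h2]
    rw [Finset.prod_mul_distrib, Finset.prod_const, Finset.card_univ, Fintype.card_fin, ← mul_assoc]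
    have h3 : Ge w 0 (∏ l : Fin m, (Matrix.of fun j c => X (finProdFinEquiv (l, j)) (z c)).det) := by
      have h4 := Pool.Agent.W619.TW.ge_prod (v := w) (a := 0)
        (f := fun l : Fin m => (Matrix.of fun j c => X (finProdFinEquiv (l, j)) (z c)).det)
        (fun l => ge_det w _ fun j c => hX (finProdFinEquiv (l, j)) (z c) (hz c))
      simpa using h4
    have h5 := hge.mul h3
    rw [add_zero] at h5
    exact h5

end

theorem noTensors_of_unir {L : Type} [Field L] [Algebra ℂ L] {w : ℕ}
    (hL : Algebra.trdeg ℂ L = w) (h : IsUnirational ℂ L w) (B : ℕ) : NoTensors ℂ L w B := by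
  obtain ⟨φ⟩ := h
  classical
  let K := FractionRing (MvPolynomial (Fin w) ℂ)
  let _ : Algebra L K := φ.toRingHom.toAlgebra
  have hst : IsScalarTower ℂ L K := IsScalarTower.of_algebraMap_eq fun c => (φ.commutes c).symm
  let σ : Fin w → K := fun l => algebraMap (MvPolynomial (Fin w) ℂ) K (MvPolynomial.X l)
  have hind : AlgebraicIndependent ℂ σ :=
    (MvPolynomial.algebraicIndependent_X (Fin w) ℂ).map'
      (f := IsScalarTower.toAlgHom ℂ (MvPolynomial (Fin w) ℂ) K)
      (IsFractionRing.injective (MvPolynomial (Fin w) ℂ) K)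
  have htop : IntermediateField.adjoin ℂ (Set.range σ) = ⊤ := by
    rw [eq_top_iff]
    intro z _
    have h1 : ∀ P : MvPolynomial (Fin w) ℂ, algebraMap (MvPolynomial (Fin w) ℂ) K P ∈
        IntermediateField.adjoin ℂ (Set.range σ) := by
      intro P
      induction P using MvPolynomial.induction_on with
      | C a =>
        exact (IntermediateField.adjoin ℂ (Set.range σ)).algebraMap_mem a
      | add p q hp hq =>
        rw [map_add]
        exact add_mem hp hq
      | mul_X p i hp =>
        rw [map_mul]
        exact mul_mem hp (IntermediateField.subset_adjoin ℂ _ ⟨i, rfl⟩)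
    obtain ⟨a, b, -, rfl⟩ := IsFractionRing.div_surjective (A := MvPolynomial (Fin w) ℂ) z
    exact div_mem (h1 a) (h1 b)
  have hbasis : IsTranscendenceBasis ℂ σ := by
    rw [hind.isTranscendenceBasis_iff_isAlgebraic]
    apply Pool.Agent.W602.GT.alg_adjoin
    rw [htop]
    exact ⟨fun x => isAlgebraic_algebraMap (A := K) (⟨x, trivial⟩ : (⊤ : IntermediateField ℂ K))⟩
  have hK : Algebra.trdeg ℂ K = w := by
    have h1 := hbasis.cardinalMk_eq_trdeg
    rw [Cardinal.mk_fin] at h1
    exact h1.symm
  exact Pool.Agent.N170.JS.noTensors_down (K := K) hL hK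
    (fun y hy => Pool.Agent.N170.JS.fd_sub (K := K) hL hK (Set.finite_range σ) htop y hy)
    (Pool.Agent.N170.JS.noTensors_of_rational hK ⟨Fin w, inferInstance, σ, hind, htop⟩ B)


/-- the degree of the tensors: it depends only on `R` -/
def tdeg (R : ℕ) : ℕ := weight R * R.factorial

theorem tdeg_pos (R : ℕ) : 1 ≤ tdeg R :=
  Nat.mul_pos (weight_pos R) (Nat.factorial_pos R)

section

open Pool.Agent.N115.JS

/-- **Varieties without tensor differentials of one degree.** -/
theorem bot_of_tensor {k L : Type} [Field k] [CharZero k] [IsAlgClosed k] [Field L] [Algebra k L]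
    [Algebra.EssFiniteType k L] {N n r : ℕ} {a : Fin (N + 1) → k}
    (f : Corr k L a n r) (hr : 1 ≤ r) (hn : n ≤ N)
    (hN : 4 * (r * n) + (r * n + r * (r - 1) + 1) ^ 2 < 2 * (N + 1))
    (ha : Function.Injective a) {D : ℕ} (hD : Algebra.trdeg k L = D)
    (h : TensorZero k L D (tdeg (r * n))) :
    Pool.Agent.N115.JS.baseField (fun _ : Unit => f) = ⊥ := by
  obtain ⟨w, hwD, hw⟩ := exists_dim (fun _ : Unit => f) hD
  rcases Nat.eq_zero_or_pos w with h0 | h0
  · apply bot_of_trdeg
    rw [hw, h0, Nat.cast_zero]
  · exfalso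
    obtain ⟨M0, x, hx, hxgen⟩ := exists_model (k := k) (Pool.Agent.N115.JS.baseField
      (fun _ : Unit => f))
    have hess : Algebra.EssFiniteType k (Pool.Agent.N115.JS.baseField (fun _ : Unit => f)) :=
      essFinite hxgen
    have h1 := base_general3 (fun _ : Unit => f) hr hn (S := 1) (by simpa using hN) ha hw
      (Or.inr ⟨inferInstance, by simp⟩)
    rw [one_mul] at h1
    have hwR : w ≤ r * n := h1.2.1
    obtain ⟨-, ω, h2, h3, X0, h4, -⟩ := h1.weight
    -- the power of the form
    set q : ℕ := (r * n).factorial / w with hq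
    have hqw : q * w = (r * n).factorial := Nat.div_mul_cancel (Nat.dvd_factorial h0 hwR)
    have hq1 : 1 ≤ q := by
      rcases Nat.eq_zero_or_pos q with h | h
      · rw [h, zero_mul] at hqw
        exact absurd hqw.symm (Nat.factorial_ne_zero _)
      · exact h
    have hT : weight (r * n) * q * w = tdeg (r * n) := by
      rw [mul_assoc, hqw]
      rfl
    refine not_vanish1 (m := weight (r * n) * q) hD (Pool.Agent.N115.JS.baseField
      (fun _ : Unit => f)) hw h0 (Nat.mul_pos (weight_pos _) hq1) (fun X => ω 0 X ^ q)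
      (fun A X => ?_) (fun u hu X hX => ?_) X0 (pow_ne_zero q h4) ?_
    · change ω 0 (fun i => ∑ l, A i l • X l) ^ q = _
      rw [h2 0 A X, mul_pow, ← pow_mul]
      rfl
    · have h5 : u.Reg (ω 0 X) := h3 u hu 0 X hX
      change u.Reg (ω 0 X ^ q)
      clear hqw hq1 hT hq
      generalize q = q0
      induction q0 with
      | zero => rw [pow_zero]; exact u.reg_one
      | succ q ih => rw [pow_succ]; exact u.reg_mul ih h5
    · change TensorZero k L D (weight (r * n) * q * w)
      rw [hT]
      exact h

/-- **The maps.** -/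
theorem linear_of_tensor {k L : Type} [Field k] [CharZero k] [IsAlgClosed k] [Field L]
    [Algebra k L] [Algebra.EssFiniteType k L] {N n r : ℕ} {a : Fin (N + 1) → k}
    (hr : 1 ≤ r) (hn : 1 ≤ n)
    (hN : 4 * (r * n) + (r * n + r * (r - 1) + 1) ^ 2 < 2 * (N + 1))
    (ha : Function.Injective a) {D : ℕ} (hD : Algebra.trdeg k L = D)
    (h : TensorZero k L D (tdeg (r * n))) (f : Corr k L a n r) :
    ∀ i j, f.red j ≠ 0 → IsAlgebraic k (f.red i / f.red j) := by
  have hbd := bound_le hr hn hN
  have hnN : n ≤ N := by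
    have h1 : 1 * (1 * n) ≤ (r * (r - 1) + 4) * (r * n) :=
      Nat.mul_le_mul (by omega) (Nat.mul_le_mul_right _ hr)
    omega
  exact fun i j hj => alg_of_bot (fun _ : Unit => f) (bot_of_tensor f hr hnN hN ha hD h) () i j hj

/-- **Images of bounded degree.** -/
theorem images_tensor {N n r : ℕ} {a : Fin (N + 1) → ℂ} (ha : Function.Injective a) (hr : 1 ≤ r)
    (hn : 1 ≤ n) (hN : 4 * (r * n) + (r * n + r * (r - 1) + 1) ^ 2 < 2 * (N + 1)) {m w : ℕ}
    (hm : 2 ≤ m) (hnw : n < (w + 1) * m)
    {K L : Type} [Field K] [Field L] [Algebra ℂ K] [Algebra ℂ L] [Algebra L K]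
    [IsScalarTower ℂ L K] [FiniteDimensional L K] (hfr : Module.finrank L K ≤ r)
    {y : Fin (N + 1) → K} (hy : y ≠ 0) (hygen : coords ℂ y = ⊤) (htr : Algebra.trdeg ℂ K = w)
    (hval : ∃ H : Polynomial K, H.natDegree ≤ n ∧
      ∀ i, y i ^ m = H.eval (algebraMap ℂ K (a i))) :
    [TensorZero ℂ L w (tdeg (r * n)), ∀ B, NoTensors ℂ L w B, IsUnirational ℂ L w,
      IsLinear ℂ y].TFAE := by
  have hess : Algebra.EssFiniteType ℂ K := essFinite hygen
  have hessL : Algebra.EssFiniteType ℂ L := ess_below (K := K)
  have hLdim : Algebra.trdeg ℂ L = w := by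
    rw [← htr, ← trdeg_add_eq ℂ L (A := K)]
    have h1 : Algebra.trdeg L K = 0 := by
      rw [trdeg_eq_zero_iff]
      infer_instance
    rw [h1, add_zero]
  have hbd := bound_le hr hn hN
  have hnN : n ≤ N := by
    have h1 : 1 * (1 * n) ≤ (r * (r - 1) + 4) * (r * n) :=
      Nat.mul_le_mul (by omega) (Nat.mul_le_mul_right _ hr)
    omega
  obtain ⟨P, hP, hval⟩ := hval
  have hP0 : P ≠ 0 := by
    rintro rfl
    apply hy
    funext i
    have h1 := hval i
    rw [Polynomial.eval_zero] at h1
    exact eq_zero_of_pow_eq_zero h1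
  obtain ⟨q, H, hqH, hfree⟩ := exists_free (by omega : 1 ≤ m) P hP0
  let f : Corr ℂ L a n r :=
    { m := m
      two_le := hm
      E := K
      degree_le := hfr
      y := y
      q := q
      H := H
      ne := hy
      deg := by rw [← hqH]; exact hP
      val := by rw [← hqH]; exact hval
      free := hfree }
  tfae_have 1 → 4 := by
    intro h
    obtain ⟨q', c, G0, ζ, hq', hc, hdeg, hζ, hyz⟩ := f.str hnN ha
      (linear_of_tensor hr hn hN ha hLdim h f)
    have htr' : Algebra.trdeg ℂ (coords ℂ y) = w := by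
      rw [hygen, ← htr]
      exact (IntermediateField.topEquiv (F := ℂ) (E := K)).trdeg_eq
    have hqw : q'.natDegree ≤ w := by
      by_contra hcon
      have h1 : (w + 1) * m ≤ q'.natDegree * m := Nat.mul_le_mul_right m (by omega)
      have h2 : q'.natDegree * m + G0.natDegree ≤ n := hdeg
      omega
    exact Pool.Agent.Y216.SV.linear_of_str hq' hc hyz htr' hqw
  tfae_have 4 → 3 := fun h => Pool.Agent.N768.JS.linUnir K L w N y hy hygen htr h
  tfae_have 3 → 2 := fun h => noTensors_of_unir hLdim h
  tfae_have 2 → 1 := fun h => h (tdeg (r * n)) (tdeg (r * n)) (tdeg_pos _) le_rfl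
  tfae_finish

end

end Pool.Agent.N115.JV
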