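import Pool.Agent.N115.JV.Eff
import Pool.Agent.N115.JV.Gen
import Pool.Agent.N115.JS.Def

/-!
Pluricanonical forms of one given weight.
-/

set_option autoImplicit false
set_option linter.unusedSectionVars false

open FF Polynomial

namespace Pool.Agent.N115.JV

open Pool.Agent.W602.GT (IsPluri DerReg Divisorial RegAt GeneralType Ruled coords essFinite
  Psef KodGe LogSec)
open Pool.Agent.W619.PQ (IsUniruled)

/-- The plurigenus `P_T` of the projective manifolds with function field `L` is zero: all
`T`-canonical forms which are regular at all prime divisors are zero. -/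
def PlurigenusZero (k L : Type) [Field k] [Field L] [Algebra k L] (w T : ℕ) : Prop :=
  ∀ ω : (Fin w → Derivation k L L) → L, IsPluri T ω →
    (∀ P : Place k L, Divisorial w P → RegAt P ω) → ∀ D, ω D = 0

/-- The `T`-canonical map of the projective manifolds with function field `L`, of dimension `w`, is
generically finite onto its image: there are `w + 1` regular `T`-canonical forms whose ratios are
algebraically independent. (So `P_T ≥ w + 1`, and the manifolds are of general type.) -/
def TCanonicalFinite (k L : Type) [Field k] [Field L] [Algebra k L] (w T : ℕ) : Prop :=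
  Algebra.trdeg k L = w ∧ ∃ ω : Fin (w + 1) → (Fin w → Derivation k L L) → L,
    (∀ j, IsPluri T (ω j)) ∧ (∀ P : Place k L, Divisorial w P → ∀ j, RegAt P (ω j)) ∧
    ∃ D, ω 0 D ≠ 0 ∧ AlgebraicIndependent k (fun i : Fin w => ω i.succ D / ω 0 D)

/-- powers of algebraically independent elements -/
theorem algInd_pow {k L : Type} [Field k] [Field L] [Algebra k L] {w q : ℕ} (hq : 1 ≤ q)
    {x : Fin w → L} (hx : AlgebraicIndependent k x) :
    AlgebraicIndependent k (fun i => x i ^ q) := by
  have h1 : Transcendental k ((X : k[X]) ^ q) := by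
    have h2 : Transcendental k (X : k[X]) := Polynomial.transcendental_X k
    exact h2.pow (by omega)
  have h2 := hx.polynomial_aeval_of_transcendental (f := fun _ : Fin w => (X : k[X]) ^ q)
    fun _ => h1
  simpa using h2

/-- **Forms of one weight.** -/
theorem GTle.weight {k L : Type} [Field k] [Field L] [Algebra k L] {w R B : ℕ}
    (h : GTle k L w R B) : TCanonicalFinite k L w B.factorial := by
  obtain ⟨htr, hwR, N, hN, hNB, ω, hω, hreg, D, hD0, hD⟩ := h
  obtain ⟨q, hq⟩ : N ∣ B.factorial := Nat.dvd_factorial hN hNB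
  have hq1 : 1 ≤ q := by
    rcases Nat.eq_zero_or_pos q with h | h
    · rw [h, mul_zero] at hq
      exact absurd hq (Nat.factorial_ne_zero B)
    · exact h
  refine ⟨htr, fun j D' => ω j D' ^ q, fun j A D' => ?_, fun P hP j D' hD' => ?_, D,
    pow_ne_zero q hD0, ?_⟩
  · change ω j (fun i => ∑ l, A i l • D' l) ^ q = A.det ^ B.factorial * ω j D' ^ q
    rw [hω j A D', mul_pow, ← pow_mul, ← hq]
  · have h1 : P.Reg (ω j D') := hreg P hP j D' hD'
    change P.Reg (ω j D' ^ q)
    clear hq hq1
    induction q with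
    | zero => rw [pow_zero]; exact P.reg_one
    | succ q ih => rw [pow_succ]; exact P.reg_mul ih h1
  · have h1 := algInd_pow hq1 hD
    have h2 : (fun i : Fin w => ω i.succ D ^ q / ω 0 D ^ q) =
        fun i : Fin w => (ω i.succ D / ω 0 D) ^ q := by
      funext i
      rw [div_pow]
    change AlgebraicIndependent k (fun i : Fin w => ω i.succ D ^ q / ω 0 D ^ q)
    rw [h2]
    exact h1

theorem TCanonicalFinite.general {k L : Type} [Field k] [Field L] [Algebra k L] {w T : ℕ}
    (hT : 0 < T) (h : TCanonicalFinite k L w T) : GeneralType k L w := by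
  obtain ⟨htr, ω, h1, h2, h3⟩ := h
  exact ⟨htr, T, hT, ω, h1, h2, h3⟩

theorem TCanonicalFinite.not_zero {k L : Type} [Field k] [Field L] [Algebra k L] {w T : ℕ}
    (h : TCanonicalFinite k L w T) : ¬ PlurigenusZero k L w T := by
  obtain ⟨htr, ω, h1, h2, D, hD0, -⟩ := h
  intro h
  exact hD0 (h (ω 0) (h1 0) (fun P hP => h2 P hP 0) D)

theorem zero_of_kod {k L : Type} [Field k] [Field L] [Algebra k L] {w T : ℕ} (hT : 0 < T)
    (h : ¬ KodGe k L w (fun _ => False) 0) : PlurigenusZero k L w T := by
  intro ω hω hreg D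
  by_contra hD
  apply h
  refine ⟨T, hT, fun _ => ω, fun _ => ⟨hω, fun P hP D hDP => ?_, fun P hP _ => hreg P hP⟩,
    D, hD, ?_⟩
  · refine hreg P hP D fun i f hf => ?_
    by_cases h0 : f = 0
    · rw [h0, map_zero]
      exact P.reg_zero
    · have h3 := P.reg_mul (hDP i f) hf
      rwa [div_mul_cancel₀ _ h0] at h3
  · rw [algebraicIndependent_empty_type_iff]
    exact (algebraMap k L).injective

/-- the weight: it depends only on `R` -/
def weight (R : ℕ) : ℕ := (2 * (R + 1).factorial).factorial

theorem weight_pos (R : ℕ) : 0 < weight R := Nat.factorial_pos _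

section

variable {k : Type} [Field k] [CharZero k] [IsAlgClosed k] {N n m r w : ℕ}

/-- **Correspondences with non-ruled subvarieties.** -/
theorem corr_weight (hm : 2 ≤ m) (hn : 1 ≤ n) (hr : 1 ≤ r) (hw : 1 ≤ w)
    (hN : 4 * (r * n) + (r * n + r * (r - 1) + 1) ^ 2 < 2 * (N + 1)) {a : Fin (N + 1) → k}
    (ha : Function.Injective a) {K : Type} [Field K] [Algebra k K]
    (htr : Algebra.trdeg k K = w)
    {y : Fin (N + 1) → K} (hy0 : y ≠ 0) (hgen : coords k y = ⊤) {H : K[X]}
    (hdeg : H.natDegree ≤ n) (hy : ∀ i, y i ^ m = H.eval (algebraMap k K (a i)))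
    (hfac : ∀ q : K[X], 2 ≤ q.natDegree → ¬ q ^ m ∣ H) (hnr : ¬ Ruled k K)
    {K' L : Type} [Field K'] [Field L] [Algebra k K'] [Algebra k L] [Algebra K K']
    [Algebra L K'] [IsScalarTower k K K'] [IsScalarTower k L K'] [FiniteDimensional K K']
    [FiniteDimensional L K'] (hfr : Module.finrank L K' ≤ r) :
    TCanonicalFinite k L w (weight (r * n)) :=
  (corr_eff hm hn hr hw hN ha htr hy0 hgen hdeg hy hfac hnr hfr).weight

/-- **One plurigenus decides.** -/
theorem below_weight (hm : 2 ≤ m) (hn : 1 ≤ n) (hr : 1 ≤ r) (hw : 1 ≤ w)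
    (hN : 4 * (r * n) + (r * n + r * (r - 1) + 1) ^ 2 < 2 * (N + 1)) {a : Fin (N + 1) → k}
    (ha : Function.Injective a) {K : Type} [Field K] [Algebra k K]
    (htr : Algebra.trdeg k K = w)
    {y : Fin (N + 1) → K} (hy0 : y ≠ 0) (hgen : coords k y = ⊤) {H : K[X]}
    (hdeg : H.natDegree ≤ n) (hy : ∀ i, y i ^ m = H.eval (algebraMap k K (a i)))
    (hfac : ∀ q : K[X], 2 ≤ q.natDegree → ¬ q ^ m ∣ H)
    {L : Type} [Field L] [Algebra k L] [Algebra L K] [IsScalarTower k L K]
    [FiniteDimensional L K] (hfr : Module.finrank L K ≤ r) :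
    [PlurigenusZero k L w (weight (r * n)), ¬ KodGe k L w (fun _ => False) 0,
      ¬ Psef k L w (fun _ => False), IsUniruled k L w, ¬ TCanonicalFinite k L w (weight (r * n)),
      Ruled k K].TFAE ∧
    (¬ TCanonicalFinite k L w (weight (r * n)) ↔ ¬ GeneralType k L w) := by
  have hess : Algebra.EssFiniteType k K := essFinite hgen
  have hT0 := weight_pos (r * n)
  have hU : IsUniruled k L w → ¬ KodGe k L w (fun _ => False) 0 := by
    intro h hk
    have hL : Algebra.EssFiniteType k L := Pool.Agent.TH466.QG.ess_below (K := K)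
    have hLdim : Algebra.trdeg k L = w := by
      rw [← htr, ← trdeg_add_eq k L (A := K)]
      have h1 : Algebra.trdeg L K = 0 := by
        rw [trdeg_eq_zero_iff]
        infer_instance
      rw [h1, add_zero]
    exact (Pool.Agent.W619.Y.uniruled_neg w hLdim h).1
      ((Pool.Agent.TH466.QG.psef_iff w).1 (Pool.Agent.W602.GT.psef_of_kodGe hk))
  have hUP : IsUniruled k L w → ¬ Psef k L w (fun _ => False) := by
    intro h hk
    have hL : Algebra.EssFiniteType k L := Pool.Agent.TH466.QG.ess_below (K := K)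
    have hLdim : Algebra.trdeg k L = w := by
      rw [← htr, ← trdeg_add_eq k L (A := K)]
      have h1 : Algebra.trdeg L K = 0 := by
        rw [trdeg_eq_zero_iff]
        infer_instance
      rw [h1, add_zero]
    exact (Pool.Agent.W619.Y.uniruled_neg w hLdim h).1
      ((Pool.Agent.TH466.QG.psef_iff w).1 hk)
  have hRu : Ruled k K → IsUniruled k L w := fun h =>
    (Pool.Agent.TH466.QG.neg_below htr h).1
  have hTR : ¬ TCanonicalFinite k L w (weight (r * n)) → Ruled k K := by
    intro h
    by_contra hnr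
    exact h (corr_weight (K' := K) hm hn hr hw hN ha htr hy0 hgen hdeg hy hfac hnr hfr)
  have hGT : ¬ GeneralType k L w → ¬ TCanonicalFinite k L w (weight (r * n)) :=
    fun h h1 => h (h1.general hT0)
  have hRG : Ruled k K → ¬ GeneralType k L w := fun h h1 =>
    hU (hRu h) (Pool.Agent.W602.GT.kod_of_general h1)
  refine ⟨?_, fun h => hRG (hTR h), hGT⟩
  tfae_have 2 → 1 := fun h => zero_of_kod hT0 h
  tfae_have 1 → 5 := fun h h1 => h1.not_zero h
  tfae_have 5 → 6 := hTR
  tfae_have 6 → 4 := hRu
  tfae_have 4 → 2 := hU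
  tfae_have 4 → 3 := hUP
  tfae_have 3 → 2 := fun h h1 => h (Pool.Agent.W602.GT.psef_of_kodGe h1)
  tfae_finish

end

section

open Pool.Agent.N115.JS

variable {k L : Type} [Field k] [CharZero k] [IsAlgClosed k] [Field L] [Algebra k L]
  {N n r : ℕ} {a : Fin (N + 1) → k}

/-- **The base of the fibration**, and the variety itself if the reduced maps are jointly generically
finite. -/
theorem base_weight {ι : Type} (f : ι → Corr k L a n r) (hr : 1 ≤ r) (hn : n ≤ N) {s : ℕ}
    (hN : 4 * (s * (r * n)) + (s * (r * n) + s * (r * (r - 1)) + 1) ^ 2 < 2 * (N + 1))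
    (ha : Function.Injective a) {w : ℕ} (hw : Algebra.trdeg k (Pool.Agent.N115.JS.baseField f) = w)
    (hfin : w ≤ s ∨ Finite ι ∧ Nat.card ι ≤ s) :
    TCanonicalFinite k (Pool.Agent.N115.JS.baseField f) w (weight (s * (r * n))) ∧
      (JointlyFinite f → TCanonicalFinite k L w (weight (s * (r * n)))) := by
  have h1 := base_general3 f hr hn hN ha hw hfin
  refine ⟨h1.weight, fun h => ?_⟩
  have h0 := Pool.Agent.N115.JS.base_top f h
  let e : Pool.Agent.N115.JS.baseField f ≃ₐ[k] L :=
    (IntermediateField.equivOfEq h0).trans IntermediateField.topEquiv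
  exact (gtle_of_equiv e h1).weight

end

end Pool.Agent.N115.JV
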